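import Pool.Agent.Helper6H.C6

set_option autoImplicit false

namespace Pool.Agent.Results.MP_41cc10_co.AlmostAllMonotone

open Pool.Agent.Helper6H

/-- The `H`-vector of almost all matroids is nondecreasing: the proportion of the matroids on
`[m]` whose `H`-vector is nondecreasing tends to `1`. -/
theorem result : Filter.Tendsto (fun m : ℕ =>
    (Nat.card {M : Matroid (Fin m) // M.E = Set.univ ∧ HNondecreasing M} : ℝ) /
      (Nat.card {M : Matroid (Fin m) // M.E = Set.univ} : ℝ)) Filter.atTop (nhds 1) := by
  apply almost_all_tendsto (fun _ M => HNondecreasing M)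
  filter_upwards [Filter.eventually_ge_atTop 16] with m hm M _ hg
  exact good_nondec hm M hg

end Pool.Agent.Results.MP_41cc10_co.AlmostAllMonotone
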